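import Pool.Agent.N996.BP.Defs

/-!
# The cohomology of the powers of a variety, Galois representations and reductions: definitions

In the intended use `F` is a finitely generated subfield of the field of complex numbers, `k` is its
algebraic closure, the varieties are the smooth projective ones over `k`, `T` is the theory
`X ↦ H(X, ℚ)` given by the embedding of `k`, the variety `X` is defined over `F`, `E` is the field
of `ℓ`-adic numbers and `Γ` is the Galois group of `k` over `F`. By the comparison theorem
`HL T.W E (pw X n)` is the `ℓ`-adic cohomology of `X ^ (n + 1)`. As the Tate twists are suppressed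
there is a character `χ`, the inverse of the cyclotomic character.

Let `y` be a closed point of a model of `F` over which `X` has good reduction `X_y`. By the
specialisation isomorphism `HL T.W E (pw X n)` is also the `ℓ`-adic cohomology of the power
`X_y ^ (n + 1)` over an algebraic closure of the residue field, and `φ` denotes a geometric Frobenius
element at `y`: it acts on the cohomology as the pull-back by the Frobenius morphism of `X_y` over
the residue field.
-/

open CategoryTheory AlgebraicGeometry

universe u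

namespace Pool.Agent.N204.RD.Raw

/-- The operations on the cohomology of the powers `X ^ (n + 1)` of a variety. -/
structure Coh (E : Type) where
  /-- the cohomology of `X ^ (n + 1)` -/
  H : ℕ → Type
  /-- the zero -/
  zero : ∀ n : ℕ, H n
  /-- the sum -/
  add : ∀ n : ℕ, H n → H n → H n
  /-- the multiplication by scalars -/
  smul : ∀ n : ℕ, E → H n → H n
  /-- the part of degree `i` -/
  gr : ∀ n : ℕ, ℕ → Set (H n)
  /-- the product -/
  mul : ∀ n : ℕ, H n → H n → H n
  /-- the trace -/
  tr : ∀ n : ℕ, H n → E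
  /-- the dimension of `X ^ (n + 1)` -/
  dim : ℕ → ℕ
  /-- the pull-backs along the coordinate maps -/
  pull : ∀ n m : ℕ, Set (H n → H m)
  /-- the classes of the algebraic cycles of codimension `j` -/
  cyc : ∀ n : ℕ, ℕ → Set (H n)
  /-- a bilinear form on the cohomology of `X` -/
  form : H 0 → H 0 → E
  /-- the sum of the Betti numbers of `X` -/
  betti : ℕ

section Generic

variable {E : Type} [Field E] {O : Coh E} {Γ : Type} [Group Γ]

/-- `P` is a subspace. -/
def IsSub (O : Coh E) (n : ℕ) (P : Set (O.H n)) : Prop :=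
  O.zero n ∈ P ∧ (∀ x ∈ P, ∀ y ∈ P, O.add n x y ∈ P) ∧ ∀ c : E, ∀ x ∈ P, O.smul n c x ∈ P

/-- `x` is a linear combination of elements of `S`. -/
def InSpan (O : Coh E) (n : ℕ) (S : Set (O.H n)) (x : O.H n) : Prop :=
  ∀ P, IsSub O n P → S ⊆ P → x ∈ P

/-- `f` is a linear form on the cohomology of `X`. -/
def IsLin (O : Coh E) (f : O.H 0 → E) : Prop :=
  (∀ x y, f (O.add 0 x y) = f x + f y) ∧ ∀ c x, f (O.smul 0 c x) = c * f x

/-- `t` is a linear map on the cohomology of `X ^ (n + 1)`. -/
def IsLinear (O : Coh E) (n : ℕ) (t : O.H n → O.H n) : Prop :=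
  (∀ x y, t (O.add n x y) = O.add n (t x) (t y)) ∧ ∀ c x, t (O.smul n c x) = O.smul n c (t x)

/-- The element `g` multiplies the class `x` by `χ g ^ j`: it fixes `x` after the `j`-th Tate
twist. -/
def Fixes (χ : Γ →* E) (ρ : ∀ n, Γ → O.H n → O.H n) {n : ℕ} (j : ℕ) (x : O.H n) (g : Γ) : Prop :=
  ρ n g x = O.smul n (χ g ^ j) x

/-- `Γ` acts linearly, the action respects the products, the degrees and the pull-backs along the
coordinate maps, an element `g` multiplies the trace by `χ g ^ dim` and maps the class of a cycle of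
codimension `j` to the product of `χ g ^ j` with the class of a cycle (the conjugate cycle), which
is the given class for all `g` in a subgroup of finite index. On `H(X)` it is compatible with the
form: `ψ(g x, g y) = χ g ^ i ψ(x, y)` for `x` of degree `i`. -/
structure IsGalois (O : Coh E) (χ : Γ →* E) (ρ : ∀ n, Γ → O.H n → O.H n) : Prop where
  one : ∀ n x, ρ n 1 x = x
  comp : ∀ n g h x, ρ n (g * h) x = ρ n g (ρ n h x)
  lin : ∀ n g, IsLinear O n (ρ n g)
  mul : ∀ n g x y, ρ n g (O.mul n x y) = O.mul n (ρ n g x) (ρ n g y)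
  deg : ∀ n g i, ∀ x ∈ O.gr n i, ρ n g x ∈ O.gr n i
  pull : ∀ n m, ∀ f ∈ O.pull n m, ∀ g x, ρ m g (f x) = f (ρ n g x)
  tr : ∀ n g x, O.tr n (ρ n g x) = χ g ^ O.dim n * O.tr n x
  conj : ∀ n g j, ∀ x ∈ O.cyc n j, ∃ y ∈ O.cyc n j, ρ n g x = O.smul n (χ g ^ j) y
  fix : ∀ n j, ∀ x ∈ O.cyc n j, ∃ Δ : Subgroup Γ, Δ.FiniteIndex ∧ ∀ g ∈ Δ, Fixes χ ρ j x g
  form : ∀ g i, ∀ x ∈ O.gr 0 i, ∀ y, O.form (ρ 0 g x) (ρ 0 g y) = χ g ^ i * O.form x y

/-- The element `f` has the properties of a geometric Frobenius element at a place with residue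
field `𝔽_p` where `X` has good reduction: `χ f = p`, and on `H^i(X)` it satisfies a monic equation
with integral coefficients, of degree at most the total Betti number, all of whose complex roots
have absolute value `p ^ (i / 2)`. (By Deligne's theorem the characteristic polynomial is such a
polynomial.) -/
def IsFrobenius (O : Coh E) (χ : Γ →* E) (ρ : ∀ n, Γ → O.H n → O.H n) (f : Γ) : Prop :=
  ∃ p : ℕ, p.Prime ∧ χ f = p ∧ ∀ i : ℕ, ∃ Q : Polynomial ℤ, Q.Monic ∧ Q.natDegree ≤ O.betti ∧
    (∀ y : ℂ, Polynomial.aeval y Q = 0 → ‖y‖ ^ 2 = (p : ℝ) ^ i) ∧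
    ∀ x ∈ O.gr 0 i, ∀ l, IsLin O l →
      ∑ m ∈ Finset.range (Q.natDegree + 1), (Q.coeff m : E) * l (ρ 0 (f ^ m) x) = 0

/-- The action on `H(X)` is continuous and the Frobenius elements are dense (Chebotarev; the places
of degree one suffice). -/
structure IsArithmetic (O : Coh E) (χ : Γ →* E) (ρ : ∀ n, Γ → O.H n → O.H n)
    [TopologicalSpace Γ] [TopologicalSpace E] : Prop where
  cont : ∀ x l, IsLin O l → Continuous fun g => l (ρ 0 g x)
  cont_χ : Continuous χ
  dense : Dense {f | IsFrobenius O χ ρ f}

/-- The representation of the subgroup `Δ` on the subspace `P` is semisimple: every `Δ`-stable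
subspace of `P` has a `Δ`-stable complement in `P`. -/
def IsSemisimpleOn (O : Coh E) (ρ : ∀ n, Γ → O.H n → O.H n) (n : ℕ) (Δ : Subgroup Γ)
    (P : Set (O.H n)) : Prop :=
  ∀ U ⊆ P, IsSub O n U → (∀ g ∈ Δ, ∀ x ∈ U, ρ n g x ∈ U) →
    ∃ V ⊆ P, IsSub O n V ∧ (∀ g ∈ Δ, ∀ x ∈ V, ρ n g x ∈ V) ∧ (∀ x ∈ U, x ∈ V → x = O.zero n) ∧
      ∀ x ∈ P, ∃ y ∈ U, ∃ z ∈ V, x = O.add n y z

/-- The Tate conjecture and the semisimplicity conjecture for a variety with the cohomology `H n`
and the classes of algebraic cycles `C` over the extension of the ground field with the Galois group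
`Δ`: for every `j` the representation of `Δ` on the cohomology of degree `2 j` is semisimple, and
every class of degree `2 j` which is invariant under `Δ` after the `j`-th Tate twist is a linear
combination with coefficients in `E` of classes of algebraic cycles which are invariant under `Δ`
after the `j`-th Tate twist. -/
def Tate (O : Coh E) (χ : Γ →* E) (ρ : ∀ n, Γ → O.H n → O.H n) (n : ℕ) (C : ℕ → Set (O.H n))
    (Δ : Subgroup Γ) : Prop :=
  ∀ j : ℕ, IsSemisimpleOn O ρ n Δ (O.gr n (2 * j)) ∧
    ∀ x ∈ O.gr n (2 * j), (∀ g ∈ Δ, Fixes χ ρ j x g) →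
      InSpan O n {y | y ∈ C j ∧ ∀ g ∈ Δ, Fixes χ ρ j y g} x

/-- All classes which are Tate classes over some finite extension are Tate classes over the
extension with the Galois group `Δ₀`. -/
def Splits (O : Coh E) (χ : Γ →* E) (ρ : ∀ n, Γ → O.H n → O.H n) (Δ₀ : Subgroup Γ) : Prop :=
  ∀ (n j : ℕ) (Δ : Subgroup Γ), Δ.FiniteIndex → ∀ x ∈ O.gr n (2 * j),
    (∀ g ∈ Δ, Fixes χ ρ j x g) → ∀ g ∈ Δ₀, Fixes χ ρ j x g

/-- The sets `C n j` have the formal properties of the sets of the classes of the algebraic cycles
(with rational coefficients) of codimension `j` on the powers `X_y ^ (n + 1)` over the algebraic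
closure of the residue field:
* they contain the classes of the algebraic cycles on `X ^ (n + 1)` (specialisation);
* they consist of classes of degree `2 j`, they are stable under sums and multiplication by rational
  numbers, and respected by products and by pull-backs and push-forwards along the coordinate maps
  between the powers (`y` is the push-forward of `x` if the projection formula holds for the traces);
* they are stable under the pull-back by the Frobenius morphism, acting on all factors (`frob`) or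
  only on the last factor (`frob_last`: `p` and `q` are pull-backs along two coordinate maps such that
  the products `p a · q b` generate the cohomology of `X ^ (n + 2)`, as is the case for the
  projections to the first `n + 1` factors and to the last factor, and `t` is the linear map
  `p a · q b ↦ p a · q (φ b)`);
* every algebraic cycle is defined over a finite extension of the residue field: some power of `φ`
  fixes its class after the Tate twist. -/
structure IsReduction (O : Coh E) (χ : Γ →* E) (ρ : ∀ n, Γ → O.H n → O.H n) (φ : Γ)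
    (C : ∀ n : ℕ, ℕ → Set (O.H n)) : Prop where
  spec : ∀ n j, O.cyc n j ⊆ C n j
  deg : ∀ n j, C n j ⊆ O.gr n (2 * j)
  add : ∀ n j, ∀ x ∈ C n j, ∀ y ∈ C n j, O.add n x y ∈ C n j
  smul : ∀ n j, ∀ x ∈ C n j, ∀ r : ℚ, O.smul n r x ∈ C n j
  mul : ∀ n i j, ∀ x ∈ C n i, ∀ y ∈ C n j, O.mul n x y ∈ C n (i + j)
  pull : ∀ n m, ∀ f ∈ O.pull n m, ∀ j, ∀ x ∈ C n j, f x ∈ C m j
  push : ∀ n m, ∀ f ∈ O.pull n m, ∀ j, ∀ x ∈ C m j, ∀ y,
    (∀ z, O.tr n (O.mul n z y) = O.tr m (O.mul m (f z) x)) → ∃ i, y ∈ C n i
  frob : ∀ n j, ∀ x ∈ C n j, ρ n φ x ∈ C n j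
  frob_last : ∀ n, ∀ p ∈ O.pull n (n + 1), ∀ q ∈ O.pull 0 (n + 1),
    (∀ x, InSpan O (n + 1) {z | ∃ a b, z = O.mul (n + 1) (p a) (q b)} x) →
    ∀ t, IsLinear O (n + 1) t →
    (∀ a b, t (O.mul (n + 1) (p a) (q b)) = O.mul (n + 1) (p a) (q (ρ 0 φ b))) →
    ∀ j, ∀ x ∈ C (n + 1) j, t x ∈ C (n + 1) j
  fix : ∀ n j, ∀ x ∈ C n j, ∃ m : ℕ, 0 < m ∧ Fixes χ ρ j x (φ ^ m)

/-- For all powers `X_y ^ (n + 1)` of the reduction:
* over all finite extensions of the residue field (their Galois groups are topologically generated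
  by the powers `φ ^ m`) the Tate conjecture holds and the Frobenius endomorphism acts semisimply on
  the cohomology in all degrees;
* homological equivalence (with coefficients in `E`) and numerical equivalence coincide. -/
def TateForReduction (O : Coh E) (χ : Γ →* E) (ρ : ∀ n, Γ → O.H n → O.H n) (φ : Γ)
    (C : ∀ n : ℕ, ℕ → Set (O.H n)) : Prop :=
  ∀ n : ℕ,
    (∀ m : ℕ, 0 < m → Tate O χ ρ n (C n) (Subgroup.zpowers (φ ^ m)) ∧
      ∀ i, IsSemisimpleOn O ρ n (Subgroup.zpowers (φ ^ m)) (O.gr n i)) ∧
    ∀ i j : ℕ, i + j = O.dim n → ∀ x, InSpan O n (C n j) x →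
      (∀ y ∈ C n i, O.tr n (O.mul n y x) = 0) → x = O.zero n

/-- The value of an additive map. -/
def ap {A B : Type*} [AddZeroClass A] [AddZeroClass B] (f : A →+ B) (a : A) : B := f a

/-- The zero of a vector space. -/
def vzero (V : Type) [AddCommGroup V] : V := 0

/-- The sum in a vector space. -/
def vadd {V : Type} [AddCommGroup V] (x y : V) : V := x + y

/-- The multiplication by scalars in a vector space. -/
def vsmul {E V : Type} [Field E] [AddCommGroup V] [Module E V] (c : E) (x : V) : V := c • x

open Pool.Agent.Y121.AHS Pool.Agent.N996.BP in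
/-- The extension of a rational bilinear form to coefficients in `E`,
`(s ⊗ a, t ⊗ b) ↦ s t ψ(a, b)`. -/
noncomputable def extBilE {K A : Type} [Field K] [Ring A] [Algebra K A] (E : Type) [Field E]
    [Algebra K E] (ψ : Bil K A) (x y : Ext K E A) : E :=
  (LinearMap.BilinForm.baseChange E ψ : LinearMap.BilinForm E (TensorProduct K E A))
    (show TensorProduct K E A from x) (show TensorProduct K E A from y)

end Generic

section Cohomology

open Pool.Agent.H914 Pool.Agent.H914.VarClass Pool.Agent.H914.VarClass.Obj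
  Pool.Agent.H914.WeilCohomology
open Pool.Agent.Y121.AHS Pool.Agent.N996.BP
open Pool.Agent.Y133.Half (pw)

variable {k : Type u} [Field k] {𝒱 : VarClass k} {ops : CycleOps 𝒱} (T : HodgeTheory ops)
  (E : Type) [Field E] [Algebra T.W.K E] {X : 𝒱.Obj}

/-- The operations on the cohomology of the powers of `X`, with the form given by a rational
bilinear form `ψ` on `H(X)`. -/
noncomputable def coh (ψ : RForm T.W X) : Coh E where
  H n := HL T.W E (pw X n)
  zero _ := vzero _
  add _ := vadd
  smul _ := vsmul
  gr n i := {x | IsDeg i x}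
  mul _ := mulL
  tr _ := trL
  dim n := (pw X n).dim
  pull n m := {f | ∃ φ : pw X m ⟶ pw X n, IsCoordinateMap φ ∧ f = mapL φ}
  cyc n j := {x | ∃ z, (pw X n).IsCyc j z ∧ x = emL T.W E (ap (T.W.cl (pw X n)) z)}
  form := extBilE E ψ
  betti := totalBetti T X

end Cohomology

/-- The explicit exponent. -/
def tateExponent (b : ℕ) : ℕ := (4 * b * b.factorial * (b ^ 2 + 1)) ^ (b ^ 2 + 1)

end Pool.Agent.N204.RD.Raw
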