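import Pool.Agent.N996.BP.Fam

/-!
# Statements of the parts of the theorem on reductions: general facts
-/

set_option linter.unusedSectionVars false

namespace Pool.Agent.N204.RD

open Matrix
open Pool.Agent.N996.BP (kp contr)

section Arrays

variable {ι : Type} [Fintype ι] [DecidableEq ι]

/-- The matrix fixes all members of the family `𝒜` of arrays. -/
def FixA (𝒜 : ∀ κ : Type, Set ((κ → ι) → ℂ)) (p : Matrix ι ι ℂ) : Prop :=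
  ∀ (κ : Type) [Fintype κ] [DecidableEq κ], ∀ a ∈ 𝒜 κ, kp κ p *ᵥ a = a

end Arrays

/-- **Task CO** (compact conjugation). -/
def S_CO : Prop := ∀ (ι : Type) [Fintype ι] [DecidableEq ι] (𝒜 : ∀ κ : Type, Set ((κ → ι) → ℂ)),
  (∀ p, FixA 𝒜 p → IsUnit p ∧ FixA 𝒜 pᴴ) →
  ∀ (F P Pi : Matrix ι ι ℂ) (lam : ι → ℂ), FixA 𝒜 F → P * Pi = 1 →
  F = P * Matrix.diagonal lam * Pi → (∀ i, ‖lam i‖ = 1) →
  ∃ g gi : Matrix ι ι ℂ, FixA 𝒜 g ∧ FixA 𝒜 gi ∧ g * gi = 1 ∧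
    (g * F * gi)ᴴ * (g * F * gi) = 1

/-- **Task KF** (unitarian trick). -/
def S_KF : Prop := ∀ (ι : Type) [Fintype ι] [DecidableEq ι] (𝒜 : ∀ κ : Type, Set ((κ → ι) → ℂ)),
  (∀ p, FixA 𝒜 p → IsUnit p ∧ FixA 𝒜 pᴴ) →
  ∀ (κ : Type) [Fintype κ] [DecidableEq κ] (x : (κ → ι) → ℂ),
  (∀ k, FixA 𝒜 k → kᴴ * k = 1 → kp κ k *ᵥ x = x) → ∀ p, FixA 𝒜 p → kp κ p *ᵥ x = x

/-- **Task SW** (generation by Haar integrals and Stone-Weierstrass). -/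
def S_SW : Prop := ∀ (ι : Type) [Fintype ι] [DecidableEq ι] (𝒜 : ∀ κ : Type, Set ((κ → ι) → ℂ))
  (Q Qi : Matrix ι ι ℂ), Q * Qi = 1 → (∀ p, FixA 𝒜 p → p * Qi * pᵀ = Qi) →
  ∀ F : Matrix ι ι ℂ, Fᴴ * F = 1 → FixA 𝒜 F →
  ∀ (κ : Type) [Fintype κ] [DecidableEq κ] (x : (κ → ι) → ℂ),
  (∀ k, FixA 𝒜 k → kᴴ * k = 1 → k * F = F * k → kp κ k *ᵥ x = x) →
  x ∈ Submodule.span ℂ {y : (κ → ι) → ℂ | ∃ (l : Type) (_ : Fintype l) (_ : DecidableEq l)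
    (Z : (κ ⊕ (l ⊕ l) → ι) → ℂ), (∀ k, FixA 𝒜 k → kᴴ * k = 1 → kp (κ ⊕ (l ⊕ l)) k *ᵥ Z = Z) ∧
      y = contr (Q * F) Z}

/-- The number `a` is a root of the characteristic polynomial of `y` of multiplicity at least
`μ`. -/
def Mul {N : Type} [Fintype N] [DecidableEq N] (y : Matrix N N ℂ) (a : ℂ) (μ : ℕ) : Prop :=
  (Polynomial.X - Polynomial.C a) ^ μ ∣ y.charpoly

/-- **Task CM** (commuting matrices). -/
def S_CM : Prop := ∀ (N : Type) [Fintype N] [DecidableEq N] (z F P Pi : Matrix N N ℂ)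
  (lam : N → ℂ) (M μ : ℕ), 0 < M → P * Pi = 1 → F = P * Matrix.diagonal lam * Pi →
  z * F = F * z → (∀ i, (∃ m : ℕ, 0 < m ∧ lam i ^ m = 1) → lam i ^ M = 1) →
  Nat.card {i : N // lam i ^ M = 1} ≤ μ → (∀ k : ℕ, Mul (z * F ^ k) 1 μ) →
  ∀ x : N → ℂ, F ^ M *ᵥ x = x → ∃ n : ℕ, (z - 1) ^ n *ᵥ x = 0

/-- **Task DG** (a criterion for semisimplicity). -/
def S_DG : Prop := ∀ (N : Type) [Fintype N] [DecidableEq N] (f P Pi : Matrix N N ℂ)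
  (lam : N → ℂ), P * Pi = 1 → (∀ i, lam i ≠ 0) →
  f * (P * Matrix.diagonal lam * Pi) = P * Matrix.diagonal lam * Pi * f →
  IsNilpotent (f - P * Matrix.diagonal lam * Pi) →
  (∀ a b, lam a = lam b → ∃ m : ℕ, 0 < m ∧
    f ^ m * (P * Matrix.single a b 1 * Pi) = P * Matrix.single a b 1 * Pi * f ^ m) →
  f = P * Matrix.diagonal lam * Pi

section Measure

open MeasureTheory

/-- **Task ME** (zero sets of functions on compact groups). -/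
def S_ME : Prop := ∀ (Γ : Type) [Group Γ] [TopologicalSpace Γ] [IsTopologicalGroup Γ]
  [CompactSpace Γ] [MeasurableSpace Γ] [BorelSpace Γ] (μ : Measure Γ) [μ.IsMulLeftInvariant]
  [IsFiniteMeasure μ] (P : Subalgebra ℂ (Γ → ℂ)), P.FG →
  (∀ f ∈ P, IsClosed {g | f g = 0}) → (∀ f ∈ P, ∀ h : Γ, (fun g => f (h * g)) ∈ P) →
  (∀ f ∈ P, ∀ h : Γ, (fun g => f (g * h)) ∈ P) →
  (∀ Δ : Subgroup Γ, Δ.FiniteIndex → ∀ f ∈ P, (∀ g ∈ Δ, f g = 0) → f = 0) →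
  ∀ f ∈ P, f ≠ 0 → μ {g | f g = 0} = 0

end Measure

end Pool.Agent.N204.RD
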